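import Pool.Agent.Run7.h457.MT.Defs

/-!
Project MT457, piece P3 (helper475): rational Lie algebras.
-/

set_option autoImplicit false

namespace Run7.h475.MT

open Matrix Run7.h457.MT

/-- A finite family of elements of a field `F` over `ℚ` is a combination of finitely many elements
of `F`, with coefficients given by linear functionals. -/
lemma coords (F : Type) [Field F] [Algebra ℚ F] {α : Type} [Finite α] (x : α → F) :
    ∃ (T : Type) (_ : Fintype T) (b : T → F) (φ : T → (F →ₗ[ℚ] ℚ)),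
      ∀ i, x i = ∑ t, b t * algebraMap ℚ F (φ t (x i)) := by
  classical
  cases nonempty_fintype α
  let B := Module.Basis.ofVectorSpace ℚ F
  let T : Finset _ := Finset.univ.biUnion fun i => (B.repr (x i)).support
  refine ⟨T, inferInstance, fun t => B t, fun t => B.coord t, fun i => ?_⟩
  have h1 : ((B.repr (x i)).sum fun t a => a • B t) = x i := B.linearCombination_repr (x i)
  have h2 : ((B.repr (x i)).sum fun t a => a • B t) = ∑ t ∈ T, (B.repr (x i)) t • B t := by
    refine Finsupp.sum_of_support_subset _ ?_ _ (fun t _ => zero_smul _ _)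
    exact Finset.subset_biUnion_of_mem (fun i => (B.repr (x i)).support) (Finset.mem_univ i)
  rw [h2] at h1
  conv_lhs => rw [← h1]
  rw [← Finset.sum_coe_sort T]
  refine Finset.sum_congr rfl fun t _ => ?_
  rw [Algebra.smul_def, mul_comm]
  rfl

theorem t_SPANV (F : Type) [Field F] [Algebra ℚ F] (ι : Type) [Fintype ι]
    (S : Submodule ℚ (ι → ℚ)) (x : ι → F) :
    x ∈ vecSpan F (S : Set (ι → ℚ)) ↔ ∀ φ : F →ₗ[ℚ] ℚ, (fun i => φ (x i)) ∈ S := by
  constructor
  · intro hx
    unfold vecSpan at hx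
    induction hx using Submodule.span_induction with
    | mem x h =>
      obtain ⟨s, hs, rfl⟩ := h
      intro φ
      have e : (fun i => φ (algebraMap ℚ F (s i))) = φ 1 • s := by
        funext i
        rw [Algebra.algebraMap_eq_smul_one, map_smul, Pi.smul_apply, smul_eq_mul, smul_eq_mul,
          mul_comm]
      show (fun i => φ (algebraMap ℚ F (s i))) ∈ S
      rw [e]
      exact S.smul_mem _ hs
    | zero =>
      intro φ
      have e : (fun i => φ ((0 : ι → F) i)) = 0 := by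
        funext i
        simp
      rw [e]
      exact S.zero_mem
    | add x y _ _ hx hy =>
      intro φ
      have e : (fun i => φ ((x + y) i)) = (fun i => φ (x i)) + fun i => φ (y i) := by
        funext i
        simp
      rw [e]
      exact S.add_mem (hx φ) (hy φ)
    | smul c x _ hx =>
      intro φ
      exact hx (φ ∘ₗ LinearMap.mulLeft ℚ c)
  · intro h
    obtain ⟨T, _, b, φ, hb⟩ := coords F x
    have e : x = ∑ t, b t • (fun i => algebraMap ℚ F ((fun i => φ t (x i)) i)) := by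
      funext i
      rw [Finset.sum_apply]
      exact hb i
    rw [e]
    refine Submodule.sum_mem _ fun t _ => Submodule.smul_mem _ _ (Submodule.subset_span ?_)
    exact ⟨_, h (φ t), rfl⟩

theorem t_SPAN (F : Type) [Field F] [Algebra ℚ F] (ι : Type) [Fintype ι] [DecidableEq ι]
    (S : Submodule ℚ (Matrix ι ι ℚ)) (x : Matrix ι ι F) :
    x ∈ ratSpan F (S : Set (Matrix ι ι ℚ)) ↔ ∀ φ : F →ₗ[ℚ] ℚ, x.map φ ∈ S := by
  constructor
  · intro hx
    unfold ratSpan at hx
    induction hx using Submodule.span_induction with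
    | mem x h =>
      obtain ⟨s, hs, rfl⟩ := h
      intro φ
      have e : (s.map (algebraMap ℚ F)).map φ = φ 1 • s := by
        ext i j
        rw [Matrix.map_apply, Matrix.map_apply, Algebra.algebraMap_eq_smul_one, map_smul,
          Matrix.smul_apply, smul_eq_mul, smul_eq_mul, mul_comm]
      show (s.map (algebraMap ℚ F)).map φ ∈ S
      rw [e]
      exact S.smul_mem _ hs
    | zero =>
      intro φ
      have e : (0 : Matrix ι ι F).map φ = 0 := by
        ext i j
        simp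
      rw [e]
      exact S.zero_mem
    | add x y _ _ hx hy =>
      intro φ
      have e : (x + y).map φ = x.map φ + y.map φ := by
        ext i j
        simp
      rw [e]
      exact S.add_mem (hx φ) (hy φ)
    | smul c x _ hx =>
      intro φ
      have e : (c • x).map φ = x.map (φ ∘ₗ LinearMap.mulLeft ℚ c) := by
        ext i j
        simp
      rw [e]
      exact hx (φ ∘ₗ LinearMap.mulLeft ℚ c)
  · intro h
    obtain ⟨T, _, b, φ, hb⟩ := coords F (fun q : ι × ι => x q.1 q.2)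
    have e : x = ∑ t, b t • (x.map (φ t)).map (algebraMap ℚ F) := by
      ext i j
      rw [Matrix.sum_apply]
      exact hb (i, j)
    rw [e]
    refine Submodule.sum_mem _ fun t _ => Submodule.smul_mem _ _ (Submodule.subset_span ?_)
    exact ⟨_, h (φ t), rfl⟩

section

variable {ι κ : Type} [Fintype ι] [DecidableEq ι] [Fintype κ] [DecidableEq κ]

/-- The Lie algebra `mtLie` is one of the Lie algebras in its definition. -/
lemma mt_lie (D D' : Matrix ι ι ℂ) : IsLie (mtLie D D') := by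
  intro x hx y hy
  unfold mtLie at *
  rw [Submodule.mem_sInf] at *
  intro S hS
  exact hS.1 x (hx S hS) y (hy S hS)

lemma mt_mem (D D' : Matrix ι ι ℂ) : D ∈ ratSpan ℂ (mtLie D D' : Set (Matrix ι ι ℚ)) := by
  rw [t_SPAN]
  intro φ
  unfold mtLie
  rw [Submodule.mem_sInf]
  intro S hS
  exact (t_SPAN ℂ ι S D).1 hS.2.1 φ

lemma mt_mem' (D D' : Matrix ι ι ℂ) : D' ∈ ratSpan ℂ (mtLie D D' : Set (Matrix ι ι ℚ)) := by
  rw [t_SPAN]
  intro φ
  unfold mtLie
  rw [Submodule.mem_sInf]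
  intro S hS
  exact (t_SPAN ℂ ι S D').1 hS.2.2 φ

lemma mt_le {D D' : Matrix ι ι ℂ} {S : Submodule ℚ (Matrix ι ι ℚ)} (hS : IsLie S)
    (hD : ∀ φ : ℂ →ₗ[ℚ] ℚ, D.map φ ∈ S) (hD' : ∀ φ : ℂ →ₗ[ℚ] ℚ, D'.map φ ∈ S) :
    mtLie D D' ≤ S :=
  sInf_le ⟨hS, (t_SPAN ℂ ι S D).2 hD, (t_SPAN ℂ ι S D').2 hD'⟩

omit [DecidableEq κ] in
/-- Expansion of a matrix. -/
lemma expand (R : Matrix ι ι ℚ →ₗ[ℚ] Matrix κ κ ℚ) (A : Matrix ι ι ℚ) :
    R A = ∑ i, ∑ j, A i j • R (Matrix.single i j 1) := by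
  conv_lhs => rw [Matrix.matrix_eq_sum_single A]
  rw [map_sum]
  refine Finset.sum_congr rfl fun i _ => ?_
  rw [map_sum]
  refine Finset.sum_congr rfl fun j _ => ?_
  rw [← map_smul]
  congr 1
  rw [Matrix.smul_single, smul_eq_mul, mul_one]

omit [DecidableEq κ] in
/-- Linear functionals commute with `ext`. -/
lemma ext_map (F : Type) [Field F] [Algebra ℚ F] (R : Matrix ι ι ℚ →ₗ[ℚ] Matrix κ κ ℚ)
    (A : Matrix ι ι F) (φ : F →ₗ[ℚ] ℚ) : (ext F R A).map φ = R (A.map φ) := by
  rw [expand R (A.map φ)]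
  show (∑ i, ∑ j, A i j • (R (Matrix.single i j 1)).map (algebraMap ℚ F)).map φ = _
  ext k l
  rw [Matrix.map_apply, Matrix.sum_apply, map_sum, Matrix.sum_apply]
  refine Finset.sum_congr rfl fun i _ => ?_
  rw [Matrix.sum_apply, map_sum, Matrix.sum_apply]
  refine Finset.sum_congr rfl fun j _ => ?_
  rw [Matrix.smul_apply, Matrix.smul_apply, Matrix.map_apply, Matrix.map_apply, smul_eq_mul,
    smul_eq_mul, mul_comm (A i j), ← Algebra.smul_def, map_smul, smul_eq_mul, mul_comm]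

omit [DecidableEq κ] in
/-- `ext` extends `R`. -/
lemma ext_rat (F : Type) [Field F] [Algebra ℚ F] (R : Matrix ι ι ℚ →ₗ[ℚ] Matrix κ κ ℚ)
    (A : Matrix ι ι ℚ) : ext F R (A.map (algebraMap ℚ F)) = (R A).map (algebraMap ℚ F) := by
  rw [expand R A]
  show ∑ i, ∑ j, (A.map (algebraMap ℚ F)) i j • (R (Matrix.single i j 1)).map (algebraMap ℚ F) = _
  ext k l
  rw [Matrix.map_apply, Matrix.sum_apply, Matrix.sum_apply, map_sum]
  refine Finset.sum_congr rfl fun i _ => ?_
  rw [Matrix.sum_apply, Matrix.sum_apply, map_sum]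
  refine Finset.sum_congr rfl fun j _ => ?_
  rw [Matrix.smul_apply, Matrix.smul_apply, Matrix.map_apply, Matrix.map_apply, smul_eq_mul,
    smul_eq_mul, map_mul]

theorem t_LIE (S : Submodule ℚ (Matrix ι ι ℚ)) (R : Matrix ι ι ℚ →ₗ[ℚ] Matrix κ κ ℚ)
    (D D' : Matrix ι ι ℂ) (hS : IsLie S) (hR : LieOn S R)
    (hD : D ∈ ratSpan ℂ (S : Set (Matrix ι ι ℚ))) (hD' : D' ∈ ratSpan ℂ (S : Set (Matrix ι ι ℚ))) :
    mtLie (ext ℂ R D) (ext ℂ R D') = (mtLie D D').map R := by
  have hm : mtLie D D' ≤ S := sInf_le ⟨hS, hD, hD'⟩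
  apply le_antisymm
  · apply mt_le
    · rintro _ ⟨a, ha, rfl⟩ _ ⟨b, hb, rfl⟩
      rw [← hR a (hm ha) b (hm hb)]
      exact ⟨_, mt_lie D D' a ha b hb, rfl⟩
    · intro φ
      rw [ext_map]
      exact ⟨_, (t_SPAN ℂ ι _ D).1 (mt_mem D D') φ, rfl⟩
    · intro φ
      rw [ext_map]
      exact ⟨_, (t_SPAN ℂ ι _ D').1 (mt_mem' D D') φ, rfl⟩
  · rw [Submodule.map_le_iff_le_comap]
    have h1 : mtLie D D' ≤ S ⊓ (mtLie (ext ℂ R D) (ext ℂ R D')).comap R := by
      apply mt_le
      · rintro a ⟨ha, ha'⟩ b ⟨hb, hb'⟩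
        refine ⟨hS a ha b hb, ?_⟩
        show R (a * b - b * a) ∈ mtLie (ext ℂ R D) (ext ℂ R D')
        rw [hR a ha b hb]
        exact mt_lie _ _ _ ha' _ hb'
      · intro φ
        refine ⟨(t_SPAN ℂ ι _ D).1 hD φ, ?_⟩
        show R (D.map φ) ∈ mtLie (ext ℂ R D) (ext ℂ R D')
        rw [← ext_map]
        exact (t_SPAN ℂ κ _ _).1 (mt_mem _ _) φ
      · intro φ
        refine ⟨(t_SPAN ℂ ι _ D').1 hD' φ, ?_⟩
        show R (D'.map φ) ∈ mtLie (ext ℂ R D) (ext ℂ R D')
        rw [← ext_map]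
        exact (t_SPAN ℂ κ _ _).1 (mt_mem' _ _) φ
    exact h1.trans inf_le_right

omit [DecidableEq κ] in
/-- A linear functional applied to a product with a rational matrix. -/
lemma map_mulVec_rat {F : Type} [Field F] [Algebra ℚ F] (A : Matrix κ κ ℚ) (x : κ → F)
    (φ : F →ₗ[ℚ] ℚ) : (fun i => φ ((A.map (algebraMap ℚ F) *ᵥ x) i)) = A *ᵥ fun i => φ (x i) := by
  funext i
  rw [Matrix.mulVec, Matrix.mulVec, dotProduct, dotProduct, map_sum]
  refine Finset.sum_congr rfl fun j _ => ?_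
  rw [Matrix.map_apply, ← Algebra.smul_def, map_smul, smul_eq_mul]

omit [DecidableEq κ] in
/-- A linear functional applied to a product with a rational vector. -/
lemma map_mulVec_rat' {F : Type} [Field F] [Algebra ℚ F] (A : Matrix κ κ F) (v : κ → ℚ)
    (φ : F →ₗ[ℚ] ℚ) : (fun i => φ ((A *ᵥ fun j => algebraMap ℚ F (v j)) i)) = A.map φ *ᵥ v := by
  funext i
  rw [Matrix.mulVec, Matrix.mulVec, dotProduct, dotProduct, map_sum]
  refine Finset.sum_congr rfl fun j _ => ?_
  rw [Matrix.map_apply, mul_comm, ← Algebra.smul_def, map_smul, smul_eq_mul, mul_comm]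

/-- an element of a field over `ℚ` killed by all functionals is zero -/
lemma eq_zero_of_functionals {F : Type} [Field F] [Algebra ℚ F] {a : F}
    (h : ∀ φ : F →ₗ[ℚ] ℚ, φ a = 0) : a = 0 :=
  (Module.forall_dual_apply_eq_zero_iff ℚ a).1 h

theorem t_INV (F : Type) [Field F] [Algebra ℚ F] (S : Submodule ℚ (Matrix ι ι ℚ))
    (E : Matrix ι ι ℚ →ₗ[ℚ] Matrix κ κ ℚ) (D D' : Matrix ι ι ℂ) (hS : IsLie S) (hE : LieOn S E)
    (hD : D ∈ ratSpan ℂ (S : Set (Matrix ι ι ℚ))) (hD' : D' ∈ ratSpan ℂ (S : Set (Matrix ι ι ℚ)))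
    (x : κ → F) : (∀ y ∈ mtLie D D', (E y).map (algebraMap ℚ F) *ᵥ x = 0) ↔
      x ∈ vecSpan F {v : κ → ℚ | ext ℂ E D *ᵥ (fun i => algebraMap ℚ ℂ (v i)) = 0 ∧
        ext ℂ E D' *ᵥ (fun i => algebraMap ℚ ℂ (v i)) = 0} := by
  have hm : mtLie D D' ≤ S := sInf_le ⟨hS, hD, hD'⟩
  let VV : Submodule ℚ (κ → ℚ) :=
    { carrier := {v : κ → ℚ | ext ℂ E D *ᵥ (fun i => algebraMap ℚ ℂ (v i)) = 0 ∧
        ext ℂ E D' *ᵥ (fun i => algebraMap ℚ ℂ (v i)) = 0}
      zero_mem' := by
        have e : (fun i => algebraMap ℚ ℂ ((0 : κ → ℚ) i)) = 0 := by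
          funext i
          simp
        rw [Set.mem_ofPred_eq, e, Matrix.mulVec_zero, Matrix.mulVec_zero]
        exact ⟨rfl, rfl⟩
      add_mem' := by
        rintro a b ⟨h1, h2⟩ ⟨h3, h4⟩
        have e : (fun i => algebraMap ℚ ℂ ((a + b) i)) =
            (fun i => algebraMap ℚ ℂ (a i)) + fun i => algebraMap ℚ ℂ (b i) := by
          funext i
          simp
        rw [Set.mem_ofPred_eq, e, Matrix.mulVec_add, Matrix.mulVec_add, h1, h2, h3, h4]
        simp
      smul_mem' := by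
        rintro c a ⟨h1, h2⟩
        have e : (fun i => algebraMap ℚ ℂ ((c • a) i)) =
            algebraMap ℚ ℂ c • fun i => algebraMap ℚ ℂ (a i) := by
          funext i
          simp
        rw [Set.mem_ofPred_eq, e, Matrix.mulVec_smul, Matrix.mulVec_smul, h1, h2]
        simp }
  show _ ↔ x ∈ vecSpan F (VV : Set (κ → ℚ))
  rw [t_SPANV]
  -- the matrices which kill a rational vector
  have hkill : ∀ v : κ → ℚ, (∀ y ∈ mtLie D D', E y *ᵥ v = 0) ↔ v ∈ VV := by
    intro v
    constructor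
    · intro h
      have key : ∀ B : Matrix ι ι ℂ, B ∈ ratSpan ℂ (mtLie D D' : Set (Matrix ι ι ℚ)) →
          ext ℂ E B *ᵥ (fun i => algebraMap ℚ ℂ (v i)) = 0 := by
        intro B hB
        funext i
        apply eq_zero_of_functionals
        intro φ
        have h1 := congrFun (map_mulVec_rat' (ext ℂ E B) v φ) i
        rw [h1, ext_map, h _ ((t_SPAN ℂ ι _ B).1 hB φ)]
        rfl
      exact ⟨key D (mt_mem D D'), key D' (mt_mem' D D')⟩
    · rintro ⟨h1, h2⟩
      let S4 : Submodule ℚ (Matrix ι ι ℚ) :=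
        S ⊓ LinearMap.ker (((Matrix.mulVecBilin ℚ ℚ).flip v) ∘ₗ E)
      have hS4 : ∀ y, y ∈ S4 ↔ y ∈ S ∧ E y *ᵥ v = 0 := fun y => Iff.rfl
      have h3 : mtLie D D' ≤ S4 := by
        apply mt_le
        · intro a ha b hb
          rw [hS4] at ha hb ⊢
          refine ⟨hS a ha.1 b hb.1, ?_⟩
          rw [hE a ha.1 b hb.1, Matrix.sub_mulVec, ← Matrix.mulVec_mulVec,
            ← Matrix.mulVec_mulVec, ha.2, hb.2, Matrix.mulVec_zero, Matrix.mulVec_zero, sub_zero]
        · intro φ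
          rw [hS4]
          refine ⟨(t_SPAN ℂ ι _ D).1 hD φ, ?_⟩
          rw [← ext_map, ← map_mulVec_rat', h1]
          funext i
          simp
        · intro φ
          rw [hS4]
          refine ⟨(t_SPAN ℂ ι _ D').1 hD' φ, ?_⟩
          rw [← ext_map, ← map_mulVec_rat', h2]
          funext i
          simp
      intro y hy
      exact ((hS4 y).1 (h3 hy)).2
  constructor
  · intro h φ
    rw [← hkill]
    intro y hy
    rw [← map_mulVec_rat, h y hy]
    funext i
    simp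
  · intro h y hy
    funext i
    apply eq_zero_of_functionals
    intro φ
    have h1 := congrFun (map_mulVec_rat (E y) x φ) i
    rw [h1, (hkill _).2 (h φ) y hy]
    rfl

end

end Run7.h475.MT
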