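import Pool.Agent.Run7.h475.MT.Log
import Pool.Agent.Run7.h475.MT.Rat
import Pool.Agent.Run7.h457.MT.Iface

/-!
Project MT457, pieces P1 and P3 (helper475).
-/

set_option autoImplicit false

namespace Run7.h475.MT

open Run7.h457.MT

theorem LOGEX : S_LOGEX := fun ℓ _ κ _ _ g hg => t_LOGEX ℓ κ g hg

theorem LOGSTAB : S_LOGSTAB := fun ℓ _ κ _ _ g L hg hL A hA => t_LOGSTAB ℓ κ g L hg hL A hA

theorem LOGFIX : S_LOGFIX := fun ℓ _ κ _ _ g L hg hL x hx => t_LOGFIX ℓ κ g L hg hL x hx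

theorem SPAN : S_SPAN := fun F _ _ ι _ _ S x => t_SPAN F ι S x

theorem SPANV : S_SPANV := fun F _ _ ι _ S x => t_SPANV F ι S x

theorem LIE : S_LIE := fun _ _ _ _ _ _ S R D D' h1 h2 h3 h4 => t_LIE S R D D' h1 h2 h3 h4

theorem INV : S_INV := fun F _ _ _ _ _ _ _ _ S E D D' h1 h2 h3 h4 x =>
  t_INV F S E D D' h1 h2 h3 h4 x

end Run7.h475.MT
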