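import Pool.Agent.Run7.h457.MT.Defs

/-!
Project MT457, piece P1 (helper475): the logarithm of an `ℓ`-adic matrix near `1`.
-/

set_option autoImplicit false

namespace Run7.h475.MT

open Matrix Filter Topology Polynomial Run7.h457.MT

/-! ### The powers `(1 + ℓ² y) ^ ℓ ^ n` in a commutative ring -/

lemma binom {C : Type} [CommRing C] (w : C) (m : ℕ) :
    ∃ r, (1 + w) ^ m = 1 + m * w + w ^ 2 * r := by
  induction m with
  | zero => exact ⟨0, by simp⟩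
  | succ m ih =>
    obtain ⟨r, hr⟩ := ih
    refine ⟨m + r + r * w, ?_⟩
    rw [pow_succ, hr]
    push_cast
    ring

lemma seq_exists {C : Type} [CommRing C] (p : ℕ) (y : C) : ∃ z c : ℕ → C, z 0 = y ∧
    (∀ n, z (n + 1) = z n * (1 + (p : C) ^ (n + 1) * c n)) ∧
    ∀ n, (1 + (p : C) ^ 2 * y) ^ p ^ n = 1 + (p : C) ^ (n + 2) * z n := by
  choose r hr using fun w : C => binom w p
  let z : ℕ → C := fun n => Nat.rec y
    (fun n a => a * (1 + (p : C) ^ (n + 1) * (a * r ((p : C) ^ (n + 2) * a)))) n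
  have hz : ∀ n, z (n + 1) = z n * (1 + (p : C) ^ (n + 1) * (z n * r ((p : C) ^ (n + 2) * z n))) :=
    fun n => rfl
  refine ⟨z, fun n => z n * r ((p : C) ^ (n + 2) * z n), rfl, hz, ?_⟩
  intro n
  induction n with
  | zero =>
    show (1 + (p : C) ^ 2 * y) ^ p ^ 0 = 1 + (p : C) ^ (0 + 2) * y
    simp
  | succ n ih =>
    rw [pow_succ p n, pow_mul, ih, hr, hz]
    ring

section

variable {ℓ : ℕ} [Fact ℓ.Prime] {κ : Type} [Fintype κ] [DecidableEq κ]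

/-- the extension of scalars for matrices -/
noncomputable def up (κ : Type) [Fintype κ] [DecidableEq κ] (ℓ : ℕ) [Fact ℓ.Prime] :
    Matrix κ κ ℤ_[ℓ] →+* Matrix κ κ ℚ_[ℓ] :=
  (algebraMap ℤ_[ℓ] ℚ_[ℓ]).mapMatrix

lemma up_apply (B : Matrix κ κ ℤ_[ℓ]) (i j : κ) : up κ ℓ B i j = (B i j : ℚ_[ℓ]) := rfl

lemma up_cont : Continuous (up κ ℓ) := by
  refine continuous_pi fun i => continuous_pi fun j => ?_
  have h1 : Continuous fun B : Matrix κ κ ℤ_[ℓ] => B i j :=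
    (continuous_apply j).comp (continuous_apply i)
  exact continuous_subtype_val.comp h1

/-- A matrix near `1` is `1 + ℓ² Y` with `Y` integral. -/
lemma near_form {g : Matrix κ κ ℚ_[ℓ]} (hg : NearOne 2 g) :
    ∃ Y : Matrix κ κ ℤ_[ℓ], g = up κ ℓ (1 + (ℓ : Matrix κ κ ℤ_[ℓ]) ^ 2 * Y) := by
  have hl : (ℓ : ℚ_[ℓ]) ≠ 0 := by
    exact_mod_cast (Fact.out : ℓ.Prime).ne_zero
  have hb : ∀ i j, ‖((ℓ : ℚ_[ℓ]) ^ 2)⁻¹ * (g - 1) i j‖ ≤ 1 := by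
    intro i j
    rw [norm_mul, norm_inv, norm_pow, Padic.norm_p]
    have h1 := hg i j
    have h2 : (0 : ℝ) < ℓ := by exact_mod_cast (Fact.out : ℓ.Prime).pos
    rw [inv_pow, inv_inv]
    calc (ℓ : ℝ) ^ 2 * ‖(g - 1) i j‖ ≤ (ℓ : ℝ) ^ 2 * ((ℓ : ℝ) ^ 2)⁻¹ := by gcongr
      _ = 1 := mul_inv_cancel₀ (by positivity)
  refine ⟨Matrix.of fun i j => (⟨((ℓ : ℚ_[ℓ]) ^ 2)⁻¹ * (g - 1) i j, hb i j⟩ : ℤ_[ℓ]), ?_⟩
  rw [map_add, map_one, map_mul, map_pow, map_natCast]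
  ext i j
  have e : ((ℓ : Matrix κ κ ℚ_[ℓ]) ^ 2) = Matrix.diagonal fun _ => (ℓ : ℚ_[ℓ]) ^ 2 := by
    rw [← Nat.cast_pow, ← Matrix.diagonal_natCast]
    simp
  rw [e, Matrix.add_apply, Matrix.diagonal_mul, up_apply, Matrix.of_apply]
  show g i j = (1 : Matrix κ κ ℚ_[ℓ]) i j + (ℓ : ℚ_[ℓ]) ^ 2 * (((ℓ : ℚ_[ℓ]) ^ 2)⁻¹ * (g - 1) i j)
  rw [← mul_assoc, mul_inv_cancel₀ (pow_ne_zero 2 hl), one_mul, Matrix.sub_apply]
  ring

/-- The sequence of quotients, inside the polynomials in `Y`. -/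
lemma seq_mat (Y : Matrix κ κ ℤ_[ℓ]) : ∃ z c : ℕ → ℤ_[ℓ][X], z 0 = X ∧
    (∀ n, z (n + 1) = z n * (1 + (ℓ : ℤ_[ℓ][X]) ^ (n + 1) * c n)) ∧
    ∀ n, (1 + (ℓ : Matrix κ κ ℤ_[ℓ]) ^ 2 * Y) ^ ℓ ^ n
      = 1 + (ℓ : Matrix κ κ ℤ_[ℓ]) ^ (n + 2) * aeval Y (z n) := by
  obtain ⟨z, c, h0, h1, h2⟩ := seq_exists ℓ (X : ℤ_[ℓ][X])
  refine ⟨z, c, h0, h1, fun n => ?_⟩
  have h3 := congrArg (aeval Y) (h2 n)
  simpa only [map_add, map_mul, map_pow, map_one, map_natCast, aeval_X] using h3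

lemma natCast_pow_mul_apply (m : ℕ) (B : Matrix κ κ ℤ_[ℓ]) (i j : κ) :
    ((ℓ : Matrix κ κ ℤ_[ℓ]) ^ m * B) i j = (ℓ : ℤ_[ℓ]) ^ m * B i j := by
  have e : ((ℓ : Matrix κ κ ℤ_[ℓ]) ^ m) = Matrix.diagonal fun _ => (ℓ : ℤ_[ℓ]) ^ m := by
    rw [← Nat.cast_pow, ← Matrix.diagonal_natCast]
    simp
  rw [e, Matrix.diagonal_mul]

/-- The sequence of quotients converges. -/
lemma seq_lim {z : ℕ → Matrix κ κ ℤ_[ℓ]} {c : ℕ → Matrix κ κ ℤ_[ℓ]}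
    (h : ∀ n, z (n + 1) = z n + (ℓ : Matrix κ κ ℤ_[ℓ]) ^ (n + 1) * c n) :
    ∃ Z, Tendsto z atTop (𝓝 Z) := by
  have h0 : (0 : ℝ) < ℓ := by exact_mod_cast (Fact.out : ℓ.Prime).pos
  have h1 : (1 : ℝ) < ℓ := by exact_mod_cast (Fact.out : ℓ.Prime).one_lt
  have hc : ∀ i j, ∃ x, Tendsto (fun n => z n i j) atTop (𝓝 x) := by
    intro i j
    apply cauchySeq_tendsto_of_complete
    refine cauchySeq_of_le_geometric (ℓ : ℝ)⁻¹ (ℓ : ℝ)⁻¹ (inv_lt_one_of_one_lt₀ h1) fun n => ?_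
    rw [dist_comm, dist_eq_norm, h n, Matrix.add_apply, add_sub_cancel_left,
      natCast_pow_mul_apply, norm_mul, norm_pow, PadicInt.norm_p]
    calc ((ℓ : ℝ)⁻¹) ^ (n + 1) * ‖c n i j‖ ≤ ((ℓ : ℝ)⁻¹) ^ (n + 1) * 1 := by
          gcongr
          exact PadicInt.norm_le_one _
      _ = _ := by ring
  choose x hx using hc
  refine ⟨Matrix.of x, ?_⟩
  exact tendsto_pi_nhds.2 fun i => tendsto_pi_nhds.2 fun j => hx i j

/-- The logarithm of `1 + ℓ² Y`. -/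
lemma log_form (Y : Matrix κ κ ℤ_[ℓ]) : ∃ z c : ℕ → ℤ_[ℓ][X], z 0 = X ∧
    (∀ n, z (n + 1) = z n * (1 + (ℓ : ℤ_[ℓ][X]) ^ (n + 1) * c n)) ∧
    ∃ Z, Tendsto (fun n => aeval Y (z n)) atTop (𝓝 Z) ∧
      IsLog (up κ ℓ (1 + (ℓ : Matrix κ κ ℤ_[ℓ]) ^ 2 * Y)) ((ℓ : ℚ_[ℓ]) ^ 2 • up κ ℓ Z) := by
  obtain ⟨z, c, h0, h1, h2⟩ := seq_mat Y
  refine ⟨z, c, h0, h1, ?_⟩
  obtain ⟨Z, hZ⟩ := seq_lim (z := fun n => aeval Y (z n)) (c := fun n => aeval Y (z n * c n))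
    (by
      intro n
      simp only [h1, map_mul, map_add, map_pow, map_one, map_natCast]
      have hc : ∀ q : ℤ_[ℓ][X], aeval Y q * (ℓ : Matrix κ κ ℤ_[ℓ]) ^ (n + 1) =
          (ℓ : Matrix κ κ ℤ_[ℓ]) ^ (n + 1) * aeval Y q := by
        intro q
        rw [← Nat.cast_pow]
        exact (Nat.cast_commute _ _).symm
      rw [mul_add, mul_one, ← mul_assoc, hc, mul_assoc])
  refine ⟨Z, hZ, ?_⟩
  unfold IsLog
  have hl : (ℓ : ℚ_[ℓ]) ≠ 0 := by exact_mod_cast (Fact.out : ℓ.Prime).ne_zero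
  have h3 : ∀ n, ((ℓ : ℚ_[ℓ]) ^ n)⁻¹ • (up κ ℓ (1 + (ℓ : Matrix κ κ ℤ_[ℓ]) ^ 2 * Y) ^ ℓ ^ n - 1)
      = (ℓ : ℚ_[ℓ]) ^ 2 • up κ ℓ (aeval Y (z n)) := by
    intro n
    rw [← map_pow, h2, map_add, map_one, add_sub_cancel_left, map_mul, map_pow, map_natCast]
    have e : ((ℓ : Matrix κ κ ℚ_[ℓ]) ^ (n + 2)) * up κ ℓ (aeval Y (z n))
        = (ℓ : ℚ_[ℓ]) ^ (n + 2) • up κ ℓ (aeval Y (z n)) := by
      rw [← Nat.cast_pow, ← Nat.cast_pow, ← nsmul_eq_mul, Nat.cast_smul_eq_nsmul]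
    rw [e, smul_smul, pow_add, ← mul_assoc, inv_mul_cancel₀ (pow_ne_zero n hl), one_mul]
  simp only [h3]
  exact ((up_cont.tendsto Z).comp hZ).const_smul _

end

theorem t_LOGEX (ℓ : ℕ) [Fact ℓ.Prime] (κ : Type) [Fintype κ] [DecidableEq κ]
    (g : Matrix κ κ ℚ_[ℓ]) (hg : NearOne 2 g) : ∃ L, IsLog g L := by
  obtain ⟨Y, rfl⟩ := near_form hg
  obtain ⟨z, c, -, -, Z, -, h⟩ := log_form Y
  exact ⟨_, h⟩

section fix

variable {ℓ : ℕ} [Fact ℓ.Prime] {κ : Type} [Fintype κ] [DecidableEq κ]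

lemma mulVec_norm_le (B : Matrix κ κ ℤ_[ℓ]) (w : κ → ℚ_[ℓ]) : ‖up κ ℓ B *ᵥ w‖ ≤ ‖w‖ := by
  rw [pi_norm_le_iff_of_nonneg (norm_nonneg _)]
  intro i
  rw [Matrix.mulVec, dotProduct]
  refine IsUltrametricDist.norm_sum_le_of_forall_le_of_nonneg (norm_nonneg _) fun j _ => ?_
  rw [norm_mul, up_apply]
  calc ‖((B i j : ℤ_[ℓ]) : ℚ_[ℓ])‖ * ‖w j‖ ≤ 1 * ‖w‖ := by
        gcongr
        · exact (B i j).2
        · exact norm_le_pi_norm w j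
    _ = _ := one_mul _

/-- `1 + ℓ^(m+1) B` does not shrink vectors. -/
lemma norm_pres (m : ℕ) (B : Matrix κ κ ℤ_[ℓ]) (w : κ → ℚ_[ℓ]) :
    ‖w‖ ≤ ‖w + ((ℓ : ℚ_[ℓ]) ^ (m + 1)) • (up κ ℓ B *ᵥ w)‖ := by
  by_cases hw : w = 0
  · simp [hw]
  have h0 : (0 : ℝ) < ℓ := by exact_mod_cast (Fact.out : ℓ.Prime).pos
  have h1 : (1 : ℝ) < ℓ := by exact_mod_cast (Fact.out : ℓ.Prime).one_lt
  have hpos : 0 < ‖w‖ := norm_pos_iff.2 hw
  have hlt : ‖((ℓ : ℚ_[ℓ]) ^ (m + 1)) • (up κ ℓ B *ᵥ w)‖ < ‖w‖ := by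
    rw [norm_smul, norm_pow, Padic.norm_p]
    calc ((ℓ : ℝ)⁻¹) ^ (m + 1) * ‖up κ ℓ B *ᵥ w‖ ≤ ((ℓ : ℝ)⁻¹) ^ (m + 1) * ‖w‖ := by
          gcongr
          exact mulVec_norm_le B w
      _ < 1 * ‖w‖ := by
          apply mul_lt_mul_of_pos_right _ hpos
          exact pow_lt_one₀ (by positivity) (inv_lt_one_of_one_lt₀ h1) (by omega)
      _ = ‖w‖ := one_mul _
  generalize ((ℓ : ℚ_[ℓ]) ^ (m + 1)) • (up κ ℓ B *ᵥ w) = v at hlt
  obtain ⟨i, hi⟩ : ∃ i, ‖w‖ ≤ ‖w i‖ := by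
    by_contra hcon
    push Not at hcon
    exact lt_irrefl _ ((pi_norm_lt_iff hpos).2 hcon)
  have h2 : ‖v i‖ < ‖w i‖ := ((norm_le_pi_norm v i).trans_lt hlt).trans_le hi
  have h3 : ‖w i + v i‖ = max ‖w i‖ ‖v i‖ :=
    IsUltrametricDist.norm_add_eq_max_of_norm_ne_norm h2.ne'
  calc ‖w‖ ≤ ‖w i‖ := hi
    _ = ‖w i + v i‖ := by rw [h3, max_eq_left h2.le]
    _ ≤ ‖w + v‖ := norm_le_pi_norm (w + v) i

lemma up_smul (a : ℤ_[ℓ]) (B : Matrix κ κ ℤ_[ℓ]) : up κ ℓ (a • B) = (a : ℚ_[ℓ]) • up κ ℓ B := by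
  ext i j
  rw [up_apply, Matrix.smul_apply, Matrix.smul_apply, up_apply, smul_eq_mul, smul_eq_mul]
  push_cast
  ring

lemma up_natCast_pow_mul (m : ℕ) (B : Matrix κ κ ℤ_[ℓ]) :
    up κ ℓ ((ℓ : Matrix κ κ ℤ_[ℓ]) ^ m * B) = (ℓ : ℚ_[ℓ]) ^ m • up κ ℓ B := by
  ext i j
  rw [up_apply, natCast_pow_mul_apply, Matrix.smul_apply, up_apply, smul_eq_mul]
  push_cast
  ring

lemma log_unique {g L L' : Matrix κ κ ℚ_[ℓ]} (h : IsLog g L) (h' : IsLog g L') : L = L' :=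
  tendsto_nhds_unique h h'

end fix

theorem t_LOGFIX (ℓ : ℕ) [Fact ℓ.Prime] (κ : Type) [Fintype κ] [DecidableEq κ]
    (g L : Matrix κ κ ℚ_[ℓ]) (hg : NearOne 2 g) (hL : IsLog g L) (x : κ → ℚ_[ℓ])
    (hx : L *ᵥ x = 0) : g *ᵥ x = x := by
  have hl : (ℓ : ℚ_[ℓ]) ≠ 0 := by exact_mod_cast (Fact.out : ℓ.Prime).ne_zero
  obtain ⟨Y, rfl⟩ := near_form hg
  obtain ⟨z, c, h0, h1, Z, hZ, h⟩ := log_form Y
  rw [log_unique hL h, Matrix.smul_mulVec, smul_eq_zero] at hx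
  have hZx : up κ ℓ Z *ᵥ x = 0 := hx.resolve_left (pow_ne_zero 2 hl)
  have hmono : ∀ n, ‖up κ ℓ Y *ᵥ x‖ ≤ ‖up κ ℓ (aeval Y (z n)) *ᵥ x‖ := by
    intro n
    induction n with
    | zero => rw [h0, aeval_X]
    | succ n ih =>
      refine ih.trans ?_
      have e : aeval Y (z (n + 1)) = aeval Y (z n) + (ℓ : Matrix κ κ ℤ_[ℓ]) ^ (n + 1) *
          (aeval Y (c n) * aeval Y (z n)) := by
        have e1 : z (n + 1) = z n + (ℓ : ℤ_[ℓ][X]) ^ (n + 1) * (c n * z n) := by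
          rw [h1]
          ring
        rw [e1]
        simp only [map_add, map_mul, map_pow, map_natCast]
      rw [e, map_add, up_natCast_pow_mul, Matrix.add_mulVec, Matrix.smul_mulVec, map_mul,
        ← Matrix.mulVec_mulVec]
      exact norm_pres n _ _
  have hlim : Tendsto (fun n => ‖up κ ℓ (aeval Y (z n)) *ᵥ x‖) atTop (𝓝 ‖up κ ℓ Z *ᵥ x‖) := by
    have hc : Continuous fun B : Matrix κ κ ℤ_[ℓ] => ‖up κ ℓ B *ᵥ x‖ :=
      (up_cont.matrix_mulVec continuous_const).norm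
    exact (hc.tendsto Z).comp hZ
  rw [hZx, norm_zero] at hlim
  have h2 : ‖up κ ℓ Y *ᵥ x‖ ≤ 0 := ge_of_tendsto' hlim hmono
  have h3 : up κ ℓ Y *ᵥ x = 0 := norm_le_zero_iff.1 h2
  rw [map_add, map_one, up_natCast_pow_mul, Matrix.add_mulVec, Matrix.one_mulVec,
    Matrix.smul_mulVec, h3, smul_zero, add_zero]

section stab

variable {ℓ : ℕ} [Fact ℓ.Prime] {κ : Type} [Fintype κ] [DecidableEq κ]

lemma sub_compact (P : Submodule ℤ_[ℓ] (Matrix κ κ ℤ_[ℓ])) :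
    IsCompact (P : Set (Matrix κ κ ℤ_[ℓ])) := by
  obtain ⟨n, v, hv⟩ := Submodule.fg_iff_exists_fin_generating_family.1 (IsNoetherian.noetherian P)
  have h1 : (P : Set (Matrix κ κ ℤ_[ℓ])) =
      Set.range (fun a : Fin n → ℤ_[ℓ] => ∑ i, a i • v i) := by
    ext x
    rw [← hv, SetLike.mem_coe, Submodule.mem_span_range_iff_exists_fun]
    rfl
  rw [h1]
  refine isCompact_range ?_
  refine continuous_finsetSum _ fun i _ => ?_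
  exact (continuous_apply i).smul continuous_const

/-- the algebra generated by `Y` -/
noncomputable def alg (Y : Matrix κ κ ℤ_[ℓ]) : Submodule ℤ_[ℓ] (Matrix κ κ ℤ_[ℓ]) :=
  LinearMap.range (aeval Y : ℤ_[ℓ][X] →ₐ[ℤ_[ℓ]] Matrix κ κ ℤ_[ℓ]).toLinearMap

lemma mem_alg {Y B : Matrix κ κ ℤ_[ℓ]} : B ∈ alg Y ↔ ∃ p : ℤ_[ℓ][X], aeval Y p = B := Iff.rfl

lemma nak {Y Z : Matrix κ κ ℤ_[ℓ]} {z c : ℕ → ℤ_[ℓ][X]} (h0 : z 0 = X)
    (h1 : ∀ n, z (n + 1) = z n * (1 + (ℓ : ℤ_[ℓ][X]) ^ (n + 1) * c n))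
    (hZ : Tendsto (fun n => aeval Y (z n)) atTop (𝓝 Z)) : Y ∈ alg Z := by
  set I : Ideal ℤ_[ℓ] := Ideal.span {(ℓ : ℤ_[ℓ])} with hI
  have hmem : ∀ n, aeval Y (z n) - Y ∈ I • alg Y := by
    intro n
    induction n with
    | zero => rw [h0, aeval_X, sub_self]; exact zero_mem _
    | succ n ih =>
      have e : aeval Y (z (n + 1)) - Y = (aeval Y (z n) - Y) +
          (ℓ : ℤ_[ℓ]) • aeval Y ((ℓ : ℤ_[ℓ][X]) ^ n * (z n * c n)) := by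
        have e1 : z (n + 1) = z n + (ℓ : ℤ_[ℓ]) • ((ℓ : ℤ_[ℓ][X]) ^ n * (z n * c n)) := by
          rw [h1, Polynomial.smul_eq_C_mul, map_natCast]
          ring
        rw [e1, map_add, map_smul]
        abel
      rw [e]
      refine add_mem ih (Submodule.smul_mem_smul (Ideal.mem_span_singleton_self _) ?_)
      exact mem_alg.2 ⟨_, rfl⟩
  have hZY : Z - Y ∈ I • alg Y := by
    have hcl : IsClosed ((I • alg Y : Submodule ℤ_[ℓ] (Matrix κ κ ℤ_[ℓ])) :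
        Set (Matrix κ κ ℤ_[ℓ])) := (sub_compact _).isClosed
    exact hcl.mem_of_tendsto (hZ.sub_const Y) (Eventually.of_forall hmem)
  obtain ⟨d, hd⟩ : ∃ d : ℤ_[ℓ][X], Z - Y = (ℓ : ℤ_[ℓ]) • aeval Y d := by
    rw [hI, Submodule.ideal_span_singleton_smul, Submodule.mem_smul_pointwise_iff_exists] at hZY
    obtain ⟨b, hb, e⟩ := hZY
    obtain ⟨d, rfl⟩ := mem_alg.1 hb
    exact ⟨d, e.symm⟩
  set q : ℤ_[ℓ][X] := X + C (ℓ : ℤ_[ℓ]) * d with hq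
  have hZq : Z = aeval Y q := by
    rw [hq, map_add, aeval_X, ← Polynomial.smul_eq_C_mul, map_smul, ← hd]
    abel
  have hle : alg Y ≤ alg Z ⊔ I • alg Y := by
    intro B hB
    obtain ⟨p, rfl⟩ := mem_alg.1 hB
    have e1 : aeval Z p = aeval Y (p.comp q) := by
      rw [hZq, Polynomial.aeval_comp]
    obtain ⟨s, hs⟩ : X - q ∣ p - p.comp q := by
      have h := Polynomial.sub_dvd_eval_sub (X : ℤ_[ℓ][X]) q (p.map C)
      rw [eval_map, eval_map] at h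
      have h2 : p.eval₂ C (X : ℤ_[ℓ][X]) = p := comp_X
      rw [h2] at h
      exact h
    have e2 : aeval Y p = aeval Z p + (ℓ : ℤ_[ℓ]) • aeval Y (-(d * s)) := by
      have h3 : p = p.comp q + (ℓ : ℤ_[ℓ]) • (-(d * s)) := by
        rw [Polynomial.smul_eq_C_mul, ← sub_eq_iff_eq_add', hs, hq]
        ring
      rw [e1]
      conv_lhs => rw [h3]
      rw [map_add, map_smul]
    rw [e2]
    refine Submodule.add_mem_sup (mem_alg.2 ⟨p, rfl⟩) ?_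
    exact Submodule.smul_mem_smul (Ideal.mem_span_singleton_self _) (mem_alg.2 ⟨_, rfl⟩)
  have hjac : I ≤ Ideal.jacobson ⊥ := by
    rw [IsLocalRing.jacobson_eq_maximalIdeal _ bot_ne_top, PadicInt.maximalIdeal_eq_span_p]
  have := Submodule.le_of_le_smul_of_le_jacobson_bot (IsNoetherian.noetherian (alg Y)) hjac hle
  exact this (mem_alg.2 ⟨X, aeval_X _⟩)

end stab

theorem t_LOGSTAB (ℓ : ℕ) [Fact ℓ.Prime] (κ : Type) [Fintype κ] [DecidableEq κ]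
    (g L : Matrix κ κ ℚ_[ℓ]) (hg : NearOne 2 g) (hL : IsLog g L)
    (A : Submodule ℚ_[ℓ] (κ → ℚ_[ℓ])) (hA : ∀ x ∈ A, L *ᵥ x ∈ A) : ∀ x ∈ A, g *ᵥ x ∈ A := by
  have hl : (ℓ : ℚ_[ℓ]) ≠ 0 := by exact_mod_cast (Fact.out : ℓ.Prime).ne_zero
  obtain ⟨Y, rfl⟩ := near_form hg
  obtain ⟨z, c, h0, h1, Z, hZ, h⟩ := log_form Y
  have hLZ := log_unique hL h
  have hZA : ∀ x ∈ A, up κ ℓ Z *ᵥ x ∈ A := by
    intro x hx
    have h2 := hA x hx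
    rw [hLZ, Matrix.smul_mulVec] at h2
    have h3 := A.smul_mem (((ℓ : ℚ_[ℓ]) ^ 2)⁻¹) h2
    rwa [smul_smul, inv_mul_cancel₀ (pow_ne_zero 2 hl), one_smul] at h3
  have hpow : ∀ (n : ℕ), ∀ x ∈ A, up κ ℓ (Z ^ n) *ᵥ x ∈ A := by
    intro n
    induction n with
    | zero =>
      intro x hx
      rw [pow_zero, map_one, Matrix.one_mulVec]
      exact hx
    | succ n ih =>
      intro x hx
      rw [pow_succ, map_mul, ← Matrix.mulVec_mulVec]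
      exact ih _ (hZA x hx)
  have hpol : ∀ (r : ℤ_[ℓ][X]), ∀ x ∈ A, up κ ℓ (aeval Z r) *ᵥ x ∈ A := by
    intro r
    induction r using Polynomial.induction_on' with
    | add p q hp hq =>
      intro x hx
      rw [map_add, map_add, Matrix.add_mulVec]
      exact A.add_mem (hp x hx) (hq x hx)
    | monomial n a =>
      intro x hx
      rw [aeval_monomial, ← Algebra.smul_def, up_smul, Matrix.smul_mulVec]
      exact A.smul_mem _ (hpow n x hx)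
  obtain ⟨r, hr⟩ := mem_alg.1 (nak h0 h1 hZ)
  intro x hx
  rw [map_add, map_one, up_natCast_pow_mul, Matrix.add_mulVec, Matrix.one_mulVec,
    Matrix.smul_mulVec, ← hr]
  exact A.add_mem hx (A.smul_mem _ (hpol r x hx))

end Run7.h475.MT
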